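import Pool.Agent.X13.Hyp2.Prod

/-!
# MP_284f77_nt, Q1 (answered positively)

For every `n`, `u(n) / (2n+1)!` has odd denominator, i.e. `v_2(u(n)) ≥ v_2((2n+1)!)`.
(The proof is in `Pool/Agent/X13/Hyp2`, see also `MP_18c163_nt.TwoIntegral`.)
-/

namespace Pool.Agent.Results.MP_284f77_nt.TwoIntegral

open Finset

/-- `Π₁(n) = ∏_{j=1}^{n} (4j-1)²` -/
def P1 (n : ℕ) : ℤ := ∏ j ∈ Icc 1 n, (4 * (j : ℤ) - 1) ^ 2

/-- `Π₃(n) = ∏_{j=1}^{n} (4j-3)²` -/
def P3 (n : ℕ) : ℤ := ∏ j ∈ Icc 1 n, (4 * (j : ℤ) - 3) ^ 2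

/-- the sequence `u`, defined by its recursion (for `n = 0` the sum is empty and `u 0 = 1`) -/
def u (n : ℕ) : ℤ :=
  P1 n - ∑ m : Fin n, ((2 * n + 1).choose (2 * (m : ℕ) + 1) : ℤ) * P3 (n - m) * u m
decreasing_by exact m.isLt

theorem u_eq (n : ℕ) : u n = P1 n
    - ∑ m ∈ range n, ((2 * n + 1).choose (2 * m + 1) : ℤ) * P3 (n - m) * u m := by
  rw [u]
  congr 1
  exact Fin.sum_univ_eq_sum_range
    (fun m => ((2 * n + 1).choose (2 * m + 1) : ℤ) * P3 (n - m) * u m) n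

theorem P1_eq (n : ℕ) : (P1 n : ℚ) = X13.Hyp2.hg 3 n * X13.Hyp2.hg 3 n := by
  induction n with
  | zero => simp [P1, X13.Hyp2.hg]
  | succ n ih =>
    have h1 : P1 (n + 1) = P1 n * (4 * ((n + 1 : ℕ) : ℤ) - 1) ^ 2 := by
      unfold P1; rw [prod_Icc_succ_top (by omega)]
    have h2 : X13.Hyp2.hg 3 (n + 1) = X13.Hyp2.hg 3 n * (4 * (n : ℚ) + 3) := by
      unfold X13.Hyp2.hg; rw [prod_range_succ]; push_cast; ring
    rw [h1, h2]
    push_cast
    rw [ih]
    ring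

theorem P3_eq (n : ℕ) : (P3 n : ℚ) = X13.Hyp2.hg 1 n * X13.Hyp2.hg 1 n := by
  induction n with
  | zero => simp [P3, X13.Hyp2.hg]
  | succ n ih =>
    have h1 : P3 (n + 1) = P3 n * (4 * ((n + 1 : ℕ) : ℤ) - 3) ^ 2 := by
      unfold P3; rw [prod_Icc_succ_top (by omega)]
    have h2 : X13.Hyp2.hg 1 (n + 1) = X13.Hyp2.hg 1 n * (4 * (n : ℚ) + 1) := by
      unfold X13.Hyp2.hg; rw [prod_range_succ]; push_cast; ring
    rw [h1, h2]
    push_cast
    rw [ih]
    ring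

theorem co_D (n : ℕ) : X13.Hyp2.co 0 1 1 0 n = (P3 n : ℚ) / ((2 * n).factorial : ℚ) := by
  unfold X13.Hyp2.co
  rw [P3_eq]
  simp only [Nat.cast_zero, mul_zero, zero_add, add_zero]
  rw [div_self (X13.Hyp2.og_ne_zero (by decide) n), mul_one]

theorem co_N (n : ℕ) : X13.Hyp2.co 1 3 3 0 n = (P1 n : ℚ) / ((2 * n + 1).factorial : ℚ) := by
  unfold X13.Hyp2.co
  rw [P1_eq]
  simp only [Nat.cast_zero, mul_zero, add_zero]
  rw [div_self (X13.Hyp2.og_ne_zero (by decide) n), mul_one]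

theorem mul_eq : (PowerSeries.mk fun n => (u n : ℚ) / ((2 * n + 1).factorial : ℚ))
    * PowerSeries.mk (X13.Hyp2.co 0 1 1 0) = PowerSeries.mk (X13.Hyp2.co 1 3 3 0) := by
  ext n
  rw [PowerSeries.coeff_mul, Finset.Nat.sum_antidiagonal_eq_sum_range_succ_mk]
  simp only [PowerSeries.coeff_mk]
  rw [co_N]
  have hn : ((2 * n + 1).factorial : ℚ) ≠ 0 := by exact_mod_cast Nat.factorial_ne_zero _
  rw [eq_div_iff hn, sum_mul]
  have h1 : ∀ m ∈ range (n + 1), (u m : ℚ) / ((2 * m + 1).factorial : ℚ)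
      * X13.Hyp2.co 0 1 1 0 (n - m) * ((2 * n + 1).factorial : ℚ)
      = ((2 * n + 1).choose (2 * m + 1) : ℚ) * P3 (n - m) * u m := by
    intro m hm
    rw [mem_range] at hm
    have h2 := Nat.choose_mul_factorial_mul_factorial (show 2 * m + 1 ≤ 2 * n + 1 by omega)
    rw [show 2 * n + 1 - (2 * m + 1) = 2 * (n - m) by omega] at h2
    have h3 : (((2 * n + 1).choose (2 * m + 1) * (2 * m + 1).factorial * (2 * (n - m)).factorial
        : ℕ) : ℚ) = ((2 * n + 1).factorial : ℚ) := by exact_mod_cast h2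
    rw [Nat.cast_mul, Nat.cast_mul] at h3
    rw [← h3, co_D]
    have a1 : ((2 * m + 1).factorial : ℚ) ≠ 0 := by exact_mod_cast Nat.factorial_ne_zero _
    have a2 : ((2 * (n - m)).factorial : ℚ) ≠ 0 := by exact_mod_cast Nat.factorial_ne_zero _
    field_simp
  rw [sum_congr rfl h1, sum_range_succ]
  have h4 := u_eq n
  have h5 : (u n : ℚ) = P1 n
      - ∑ m ∈ range n, ((2 * n + 1).choose (2 * m + 1) : ℚ) * P3 (n - m) * u m := by
    rw [h4]; push_cast; rfl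
  rw [Nat.sub_self, Nat.choose_self]
  have h6 : P3 0 = 1 := by simp [P3]
  rw [h6]
  push_cast
  linarith

/-- For every `n` the rational number `u(n)/(2n+1)!` has odd denominator; equivalently the 2-adic
valuation of `u(n)` is at least the one of `(2n+1)!`. -/
theorem result (n : ℕ) :
    Odd ((u n : ℚ) / ((2 * n + 1).factorial : ℚ)).den ∧
      emultiplicity (2 : ℤ) ((2 * n + 1).factorial : ℤ) ≤ emultiplicity (2 : ℤ) (u n) := by
  have h1 := X13.Hyp2.quotient_co 0 0 0 0 0 0 n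
  simp only [Nat.cast_zero, mul_zero, zero_add] at h1
  have h0 : PowerSeries.constantCoeff (PowerSeries.mk (X13.Hyp2.co 0 1 1 0)) ≠ 0 := by
    rw [← PowerSeries.coeff_zero_eq_constantCoeff_apply, PowerSeries.coeff_mk]
    simp [X13.Hyp2.co, X13.Hyp2.hg, X13.Hyp2.og]
  rw [← mul_eq, mul_assoc, PowerSeries.mul_inv_cancel _ h0, mul_one, PowerSeries.coeff_mk] at h1
  have hodd : Odd ((u n : ℚ) / ((2 * n + 1).factorial : ℚ)).den := h1
  refine ⟨hodd, ?_⟩
  rw [emultiplicity_le_emultiplicity_iff]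
  intro k hk
  set x : ℚ := (u n : ℚ) / ((2 * n + 1).factorial : ℚ) with hx
  have hn : ((2 * n + 1).factorial : ℚ) ≠ 0 := by exact_mod_cast Nat.factorial_ne_zero _
  have hxd : x * x.den = x.num := Rat.mul_den_eq_num x
  have h2 : (u n : ℚ) * x.den = x.num * ((2 * n + 1).factorial : ℚ) := by
    rw [← hxd, hx]
    field_simp
  have h3 : u n * (x.den : ℤ) = x.num * ((2 * n + 1).factorial : ℤ) := by exact_mod_cast h2
  have h4 : (2 : ℤ) ^ k ∣ u n * (x.den : ℤ) := by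
    rw [h3]; exact Dvd.dvd.mul_left hk _
  have h5 : IsCoprime ((2 : ℤ) ^ k) (x.den : ℤ) := by
    apply IsCoprime.pow_left
    rw [Int.isCoprime_iff_gcd_eq_one]
    have : Nat.Coprime 2 x.den := (Nat.coprime_two_left).mpr hodd
    exact this
  exact h5.dvd_of_dvd_mul_right h4

end Pool.Agent.Results.MP_284f77_nt.TwoIntegral
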